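import Pool.Agent.H48.M5.Stmts

/-!
# TAY: the monomials of degree at most `K` with their gradients

Row TAY of the list of helper48 (lemma L1 of the slope law).
-/

set_option autoImplicit false

namespace Pool.Agent.H1.M5

open Finset Pool.M5

theorem abs_pow_le_one {x : ℝ} (hx : |x| ≤ 1) (a : ℕ) : |x ^ a| ≤ 1 := by
  rw [abs_pow]
  exact pow_le_one₀ (abs_nonneg x) hx

/-- The powers are Lipschitz on `[-1, 1]`. -/
theorem pow_lip {x y : ℝ} (hx : |x| ≤ 1) (hy : |y| ≤ 1) (a : ℕ) :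
    |x ^ a - y ^ a| ≤ a * |x - y| := by
  induction a with
  | zero => simp
  | succ a ih =>
    have e : x ^ (a + 1) - y ^ (a + 1) = x * (x ^ a - y ^ a) + (x - y) * y ^ a := by ring
    rw [e]
    have h1 : |x * (x ^ a - y ^ a)| ≤ a * |x - y| := by
      rw [abs_mul]
      calc |x| * |x ^ a - y ^ a| ≤ 1 * |x ^ a - y ^ a| :=
            mul_le_mul_of_nonneg_right hx (abs_nonneg _)
        _ = |x ^ a - y ^ a| := one_mul _
        _ ≤ a * |x - y| := ih
    have h2 : |(x - y) * y ^ a| ≤ |x - y| := by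
      rw [abs_mul]
      calc |x - y| * |y ^ a| ≤ |x - y| * 1 :=
            mul_le_mul_of_nonneg_left (abs_pow_le_one hy a) (abs_nonneg _)
        _ = |x - y| := mul_one _
    have h3 := abs_add_le (x * (x ^ a - y ^ a)) ((x - y) * y ^ a)
    push_cast
    linarith

/-- First order Taylor formula for a power, with a base point near both points. -/
theorem pow_tay {x x' x₀ r : ℝ} (hx : |x| ≤ 1) (hx' : |x'| ≤ 1) (h0 : |x₀| ≤ 1)
    (hr : |x - x₀| ≤ r) (hr' : |x' - x₀| ≤ r) (a : ℕ) :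
    |x ^ a - x' ^ a - a * x₀ ^ (a - 1) * (x - x')| ≤ (a : ℝ) ^ 2 * r * |x - x'| := by
  have r0 : 0 ≤ r := le_trans (abs_nonneg _) hr
  induction a with
  | zero => simp
  | succ a ih =>
    rcases Nat.eq_zero_or_pos a with h | h
    · subst h
      simp
      positivity
    · have ea : x₀ ^ a = x₀ * x₀ ^ (a - 1) := by
        rw [← pow_succ']
        congr 1
        omega
      have e : x ^ (a + 1) - x' ^ (a + 1) - ((a + 1 : ℕ) : ℝ) * x₀ ^ (a + 1 - 1) * (x - x') =
          x * (x ^ a - x' ^ a - a * x₀ ^ (a - 1) * (x - x')) +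
          a * x₀ ^ (a - 1) * (x - x₀) * (x - x') + (x - x') * (x' ^ a - x₀ ^ a) := by
        have e1 : a + 1 - 1 = a := by omega
        rw [e1]
        push_cast
        have e2 : (a : ℝ) * x₀ ^ a = a * (x₀ * x₀ ^ (a - 1)) := by rw [← ea]
        have e3 : x ^ (a + 1) - x' ^ (a + 1) - (↑a + 1) * x₀ ^ a * (x - x') =
            x ^ (a + 1) - x' ^ (a + 1) - (a : ℝ) * x₀ ^ a * (x - x') - x₀ ^ a * (x - x') := by ring
        rw [e3, e2]
        ring
      rw [e]
      have d0 : 0 ≤ |x - x'| := abs_nonneg _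
      have h1 : |x * (x ^ a - x' ^ a - a * x₀ ^ (a - 1) * (x - x'))| ≤
          (a : ℝ) ^ 2 * r * |x - x'| := by
        rw [abs_mul]
        calc |x| * |x ^ a - x' ^ a - a * x₀ ^ (a - 1) * (x - x')|
            ≤ 1 * |x ^ a - x' ^ a - a * x₀ ^ (a - 1) * (x - x')| :=
              mul_le_mul_of_nonneg_right hx (abs_nonneg _)
          _ = |x ^ a - x' ^ a - a * x₀ ^ (a - 1) * (x - x')| := one_mul _
          _ ≤ _ := ih
      have h2 : |a * x₀ ^ (a - 1) * (x - x₀) * (x - x')| ≤ a * r * |x - x'| := by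
        rw [abs_mul, abs_mul, abs_mul, Nat.abs_cast]
        have q1 : (a : ℝ) * |x₀ ^ (a - 1)| ≤ a * 1 :=
          mul_le_mul_of_nonneg_left (abs_pow_le_one h0 _) (Nat.cast_nonneg a)
        have q2 : (a : ℝ) * |x₀ ^ (a - 1)| * |x - x₀| ≤ a * 1 * r :=
          mul_le_mul q1 hr (abs_nonneg _) (by positivity)
        calc (a : ℝ) * |x₀ ^ (a - 1)| * |x - x₀| * |x - x'| ≤ a * 1 * r * |x - x'| :=
              mul_le_mul_of_nonneg_right q2 d0
          _ = a * r * |x - x'| := by ring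
      have h3 : |(x - x') * (x' ^ a - x₀ ^ a)| ≤ a * r * |x - x'| := by
        rw [abs_mul]
        have q1 : |x' ^ a - x₀ ^ a| ≤ a * r :=
          le_trans (pow_lip hx' h0 a) (mul_le_mul_of_nonneg_left hr' (Nat.cast_nonneg a))
        calc |x - x'| * |x' ^ a - x₀ ^ a| ≤ |x - x'| * (a * r) :=
              mul_le_mul_of_nonneg_left q1 d0
          _ = a * r * |x - x'| := by ring
      have h4 := abs_add_le (x * (x ^ a - x' ^ a - a * x₀ ^ (a - 1) * (x - x')) +
          a * x₀ ^ (a - 1) * (x - x₀) * (x - x')) ((x - x') * (x' ^ a - x₀ ^ a))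
      have h5 := abs_add_le (x * (x ^ a - x' ^ a - a * x₀ ^ (a - 1) * (x - x')))
          (a * x₀ ^ (a - 1) * (x - x₀) * (x - x'))
      have h6 : ((a + 1 : ℕ) : ℝ) ^ 2 * r * |x - x'| =
          (a : ℝ) ^ 2 * r * |x - x'| + 2 * (a * r * |x - x'|) + r * |x - x'| := by
        push_cast
        ring
      have h7 : 0 ≤ r * |x - x'| := mul_nonneg r0 d0
      rw [h6]
      linarith

section

variable {k : ℕ} (al : Fin k → ℕ)

/-- The monomial in the variables of `s`. -/
def ms (s : Finset (Fin k)) (x : Fin k → ℝ) : ℝ := ∏ j ∈ s, x j ^ al j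

/-- Its derivative in the direction `i`. -/
def dms (s : Finset (Fin k)) (x : Fin k → ℝ) (i : Fin k) : ℝ :=
  al i * x i ^ (al i - 1) * ∏ j ∈ s.erase i, x j ^ al j

theorem prod_le (s : Finset (Fin k)) {x : Fin k → ℝ} (hx : ∀ j, |x j| ≤ 1) :
    |∏ j ∈ s, x j ^ al j| ≤ 1 := by
  rw [Finset.abs_prod]
  exact Finset.prod_le_one (fun _ _ => abs_nonneg _) fun j _ => abs_pow_le_one (hx j) _

theorem dms_le (s : Finset (Fin k)) {x : Fin k → ℝ} (hx : ∀ j, |x j| ≤ 1) (i : Fin k) :
    |dms al s x i| ≤ al i := by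
  unfold dms
  rw [abs_mul, abs_mul, Nat.abs_cast]
  have q1 : (al i : ℝ) * |x i ^ (al i - 1)| ≤ al i * 1 :=
    mul_le_mul_of_nonneg_left (abs_pow_le_one (hx i) _) (Nat.cast_nonneg _)
  have q2 := prod_le al (s.erase i) hx
  calc (al i : ℝ) * |x i ^ (al i - 1)| * |∏ j ∈ s.erase i, x j ^ al j| ≤ al i * 1 * 1 :=
        mul_le_mul q1 q2 (abs_nonneg _) (by positivity)
    _ = al i := by ring

theorem ms_lip (s : Finset (Fin k)) {x y : Fin k → ℝ} {r : ℝ} (hx : ∀ j, |x j| ≤ 1)
    (hy : ∀ j, |y j| ≤ 1) (hr : ∀ j, |x j - y j| ≤ r) :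
    |ms al s x - ms al s y| ≤ (∑ j ∈ s, (al j : ℝ)) * r := by
  induction s using Finset.induction_on with
  | empty => simp [ms]
  | insert i s hi ih =>
    have e : ms al (insert i s) x - ms al (insert i s) y =
        x i ^ al i * (ms al s x - ms al s y) + (x i ^ al i - y i ^ al i) * ms al s y := by
      unfold ms
      rw [Finset.prod_insert hi, Finset.prod_insert hi]
      ring
    rw [e, Finset.sum_insert hi]
    have h1 : |x i ^ al i * (ms al s x - ms al s y)| ≤ (∑ j ∈ s, (al j : ℝ)) * r := by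
      rw [abs_mul]
      calc |x i ^ al i| * |ms al s x - ms al s y| ≤ 1 * |ms al s x - ms al s y| :=
            mul_le_mul_of_nonneg_right (abs_pow_le_one (hx i) _) (abs_nonneg _)
        _ = |ms al s x - ms al s y| := one_mul _
        _ ≤ _ := ih
    have h2 : |(x i ^ al i - y i ^ al i) * ms al s y| ≤ al i * r := by
      rw [abs_mul]
      have q1 : |x i ^ al i - y i ^ al i| ≤ al i * r :=
        le_trans (pow_lip (hx i) (hy i) _) (mul_le_mul_of_nonneg_left (hr i) (Nat.cast_nonneg _))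
      calc |x i ^ al i - y i ^ al i| * |ms al s y| ≤ |x i ^ al i - y i ^ al i| * 1 :=
            mul_le_mul_of_nonneg_left (prod_le al s hy) (abs_nonneg _)
        _ = |x i ^ al i - y i ^ al i| := mul_one _
        _ ≤ _ := q1
    have h3 := abs_add_le (x i ^ al i * (ms al s x - ms al s y))
      ((x i ^ al i - y i ^ al i) * ms al s y)
    linarith

theorem ms_tay (s : Finset (Fin k)) {x x' x₀ : Fin k → ℝ} {r : ℝ} (hx : ∀ j, |x j| ≤ 1)
    (hx' : ∀ j, |x' j| ≤ 1) (h0 : ∀ j, |x₀ j| ≤ 1) (hr : ∀ j, |x j - x₀ j| ≤ r)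
    (hr' : ∀ j, |x' j - x₀ j| ≤ r) :
    |ms al s x - ms al s x' - ∑ j ∈ s, dms al s x₀ j * (x j - x' j)| ≤
      (∑ j ∈ s, (al j : ℝ)) ^ 2 * r * ‖x - x'‖ := by
  induction s using Finset.induction_on with
  | empty => simp [ms]
  | insert i s hi ih =>
    have r0 : 0 ≤ r := le_trans (abs_nonneg _) (hr i)
    have D0 : 0 ≤ ‖x - x'‖ := norm_nonneg _
    have hd : ∀ j, |x j - x' j| ≤ ‖x - x'‖ := fun j => by
      have := norm_le_pi_norm (x - x') j
      simpa [Real.norm_eq_abs] using this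
    set S : ℝ := ∑ j ∈ s, dms al s x₀ j * (x j - x' j) with hS
    set A : ℝ := ∑ j ∈ s, (al j : ℝ) with hA
    have A0 : 0 ≤ A := Finset.sum_nonneg fun j _ => Nat.cast_nonneg _
    have eS : ∑ j ∈ s, dms al (insert i s) x₀ j * (x j - x' j) = x₀ i ^ al i * S := by
      rw [hS, Finset.mul_sum]
      refine Finset.sum_congr rfl fun j hj => ?_
      have hij : j ≠ i := fun h => hi (h ▸ hj)
      unfold dms
      have e1 : (insert i s).erase j = insert i (s.erase j) := Finset.erase_insert_of_ne hij.symm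
      rw [e1, Finset.prod_insert (fun h => hi (Finset.mem_of_mem_erase h))]
      ring
    have ei : dms al (insert i s) x₀ i = al i * x₀ i ^ (al i - 1) * ms al s x₀ := by
      unfold dms ms
      rw [Finset.erase_insert hi]
    have e : ms al (insert i s) x - ms al (insert i s) x' -
        ∑ j ∈ insert i s, dms al (insert i s) x₀ j * (x j - x' j) =
        (x i ^ al i - x' i ^ al i - al i * x₀ i ^ (al i - 1) * (x i - x' i)) * ms al s x +
        al i * x₀ i ^ (al i - 1) * (x i - x' i) * (ms al s x - ms al s x₀) +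
        x' i ^ al i * (ms al s x - ms al s x' - S) + (x' i ^ al i - x₀ i ^ al i) * S := by
      rw [Finset.sum_insert hi, eS, ei]
      have e1 : ms al (insert i s) x = x i ^ al i * ms al s x := by
        unfold ms
        rw [Finset.prod_insert hi]
      have e2 : ms al (insert i s) x' = x' i ^ al i * ms al s x' := by
        unfold ms
        rw [Finset.prod_insert hi]
      rw [e1, e2]
      ring
    have b1 : |(x i ^ al i - x' i ^ al i - al i * x₀ i ^ (al i - 1) * (x i - x' i)) * ms al s x| ≤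
        (al i : ℝ) ^ 2 * (r * ‖x - x'‖) := by
      rw [abs_mul]
      have q1 := pow_tay (hx i) (hx' i) (h0 i) (hr i) (hr' i) (al i)
      have q2 : (al i : ℝ) ^ 2 * r * |x i - x' i| ≤ (al i : ℝ) ^ 2 * r * ‖x - x'‖ :=
        mul_le_mul_of_nonneg_left (hd i) (by positivity)
      calc |x i ^ al i - x' i ^ al i - al i * x₀ i ^ (al i - 1) * (x i - x' i)| * |ms al s x|
          ≤ |x i ^ al i - x' i ^ al i - al i * x₀ i ^ (al i - 1) * (x i - x' i)| * 1 :=
            mul_le_mul_of_nonneg_left (prod_le al s hx) (abs_nonneg _)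
        _ ≤ (al i : ℝ) ^ 2 * (r * ‖x - x'‖) := by linarith
    have b2 : |al i * x₀ i ^ (al i - 1) * (x i - x' i) * (ms al s x - ms al s x₀)| ≤
        al i * A * (r * ‖x - x'‖) := by
      rw [abs_mul, abs_mul, abs_mul, Nat.abs_cast]
      have q1 : (al i : ℝ) * |x₀ i ^ (al i - 1)| ≤ al i * 1 :=
        mul_le_mul_of_nonneg_left (abs_pow_le_one (h0 i) _) (Nat.cast_nonneg _)
      have q2 : (al i : ℝ) * |x₀ i ^ (al i - 1)| * |x i - x' i| ≤ al i * 1 * ‖x - x'‖ :=
        mul_le_mul q1 (hd i) (abs_nonneg _) (by positivity)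
      have q3 := ms_lip al s hx h0 hr
      calc (al i : ℝ) * |x₀ i ^ (al i - 1)| * |x i - x' i| * |ms al s x - ms al s x₀|
          ≤ al i * 1 * ‖x - x'‖ * (A * r) := mul_le_mul q2 q3 (abs_nonneg _) (by positivity)
        _ = al i * A * (r * ‖x - x'‖) := by ring
    have b3 : |x' i ^ al i * (ms al s x - ms al s x' - S)| ≤ A ^ 2 * (r * ‖x - x'‖) := by
      rw [abs_mul]
      calc |x' i ^ al i| * |ms al s x - ms al s x' - S| ≤ 1 * |ms al s x - ms al s x' - S| :=
            mul_le_mul_of_nonneg_right (abs_pow_le_one (hx' i) _) (abs_nonneg _)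
        _ ≤ A ^ 2 * (r * ‖x - x'‖) := by
          rw [one_mul, ← mul_assoc]
          exact ih
    have bS : |S| ≤ A * ‖x - x'‖ := by
      rw [hS, hA, Finset.sum_mul]
      refine le_trans (Finset.abs_sum_le_sum_abs _ _) (Finset.sum_le_sum fun j _ => ?_)
      rw [abs_mul]
      exact mul_le_mul (dms_le al s h0 j) (hd j) (abs_nonneg _) (Nat.cast_nonneg _)
    have b4 : |(x' i ^ al i - x₀ i ^ al i) * S| ≤ al i * A * (r * ‖x - x'‖) := by
      rw [abs_mul]
      have q1 : |x' i ^ al i - x₀ i ^ al i| ≤ al i * r :=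
        le_trans (pow_lip (hx' i) (h0 i) _) (mul_le_mul_of_nonneg_left (hr' i) (Nat.cast_nonneg _))
      calc |x' i ^ al i - x₀ i ^ al i| * |S| ≤ al i * r * (A * ‖x - x'‖) :=
            mul_le_mul q1 bS (abs_nonneg _) (by positivity)
        _ = al i * A * (r * ‖x - x'‖) := by ring
    rw [e, Finset.sum_insert hi]
    have t1 := abs_add_le
      ((x i ^ al i - x' i ^ al i - al i * x₀ i ^ (al i - 1) * (x i - x' i)) * ms al s x +
        al i * x₀ i ^ (al i - 1) * (x i - x' i) * (ms al s x - ms al s x₀) +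
        x' i ^ al i * (ms al s x - ms al s x' - S)) ((x' i ^ al i - x₀ i ^ al i) * S)
    have t2 := abs_add_le
      ((x i ^ al i - x' i ^ al i - al i * x₀ i ^ (al i - 1) * (x i - x' i)) * ms al s x +
        al i * x₀ i ^ (al i - 1) * (x i - x' i) * (ms al s x - ms al s x₀))
      (x' i ^ al i * (ms al s x - ms al s x' - S))
    have t3 := abs_add_le
      ((x i ^ al i - x' i ^ al i - al i * x₀ i ^ (al i - 1) * (x i - x' i)) * ms al s x)
      (al i * x₀ i ^ (al i - 1) * (x i - x' i) * (ms al s x - ms al s x₀))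
    have t4 : ((al i : ℝ) + A) ^ 2 * r * ‖x - x'‖ = (al i : ℝ) ^ 2 * (r * ‖x - x'‖) +
        2 * (al i * A * (r * ‖x - x'‖)) + A ^ 2 * (r * ‖x - x'‖) := by ring
    rw [t4]
    linarith

end

/-- **TAY.** -/
theorem tay_thm : TAYStmt := by
  intro k K
  have hal : ∀ al : Mon k K, (∑ j, (((al : Fin k → ℕ) j : ℕ) : ℝ)) ≤ K := by
    intro al
    have h := al.2
    simp only [Mon, Finset.mem_filter] at h
    exact_mod_cast h.2.2
  have hal1 : ∀ (al : Mon k K) (j : Fin k), (((al : Fin k → ℕ) j : ℕ) : ℝ) ≤ K := by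
    intro al j
    refine le_trans ?_ (hal al)
    exact Finset.single_le_sum (f := fun j => (((al : Fin k → ℕ) j : ℕ) : ℝ))
      (fun i _ => Nat.cast_nonneg _) (Finset.mem_univ j)
  have hK : (K : ℝ) ≤ (K : ℝ) ^ 2 + 1 := by nlinarith [sq_nonneg ((K : ℝ) - 1)]
  refine ⟨⟨fun i => mono (i : Fin k → ℕ), fun i => dmono (i : Fin k → ℕ), (K : ℝ) ^ 2 + 1,
    ?_, ?_, ?_, ?_⟩, fun i => rfl, fun i => rfl⟩
  · nlinarith [sq_nonneg (K : ℝ)]
  · intro i x hx
    have h := prod_le (i : Fin k → ℕ) univ hx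
    have : |mono (i : Fin k → ℕ) x| ≤ 1 := h
    nlinarith [sq_nonneg (K : ℝ)]
  · intro i x hx j
    have h := dms_le (i : Fin k → ℕ) univ hx j
    have h' : |dmono (i : Fin k → ℕ) x j| ≤ ((i : Fin k → ℕ) j : ℝ) := h
    exact le_trans h' (le_trans (hal1 i j) hK)
  · intro i x x' x₀ hx hx' h0 r hr hr'
    have h := ms_tay (i : Fin k → ℕ) univ hx hx' h0 hr hr'
    have h' : |mono (i : Fin k → ℕ) x - mono (i : Fin k → ℕ) x' -
        ∑ j, dmono (i : Fin k → ℕ) x₀ j * (x j - x' j)| ≤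
        (∑ j, (((i : Fin k → ℕ) j : ℕ) : ℝ)) ^ 2 * r * ‖x - x'‖ := h
    refine le_trans h' ?_
    rcases Nat.eq_zero_or_pos k with hk | hk
    · subst hk
      have hn : ‖x - x'‖ = 0 := by
        have h0' : x - x' = 0 := Subsingleton.elim _ _
        rw [h0']
        exact norm_zero
      rw [hn, mul_zero, mul_zero]
    · have r0 : 0 ≤ r := le_trans (abs_nonneg _) (hr ⟨0, hk⟩)
      have s0 : 0 ≤ ∑ j, (((i : Fin k → ℕ) j : ℕ) : ℝ) :=
        Finset.sum_nonneg fun j _ => Nat.cast_nonneg _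
      have s1 : (∑ j, (((i : Fin k → ℕ) j : ℕ) : ℝ)) ^ 2 ≤ (K : ℝ) ^ 2 + 1 := by
        have := pow_le_pow_left₀ s0 (hal i) 2
        linarith
      exact mul_le_mul_of_nonneg_right (mul_le_mul_of_nonneg_right s1 r0) (norm_nonneg _)

end Pool.Agent.H1.M5
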